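import Pool.Agent.Helper5.RS.SvB
import Pool.Agent.Helper5.RS.SvD

/-!
# Project EA, block A4: the large primes, deterministic bound

Dyadic blocks `[H, 2H)`, `H = H0 2^i`. In each block the Selberg majorant of level `zs = ⌊B^(1/8)⌋` (`major_expand`, `major_mean`,
`fluct_large`) gives at most `N / G zs + N zs⁴ / H + zs⁴ N / B`, and `G zs ≥ log zs / C2`.
-/

set_option autoImplicit false

namespace Pool.Agent.Helper51.EA

open Finset Pool.Agent.Helper5.RM Pool.Agent.Helper5.RS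

private lemma a4_one (N B H : ℕ) (θ D : ℝ) (hF : Far N θ D) (hDN : D ≤ N) (hB : 256 ≤ B) (hBD : (B : ℝ) ^ 4 ≤ D)
    (hH : 1 ≤ H) (hH2 : N < B * H) (T : Finset ℕ) (zs : ℕ) (hz : 1 ≤ zs) (hz8 : zs ^ 8 ≤ B) :
    ∑ l ∈ Finset.Ico H (2 * H), aj zs l * ‖XP N θ l T‖ ^ 2 ≤
      (N : ℝ) / Pool.Agent.Helper66.AF.BT.G zs + 2 * N / Real.sqrt B := by
  classical
  have hG := Pool.Agent.Helper66.AF.BT.G_pos hz
  have hB0 : (256 : ℝ) ≤ B := by exact_mod_cast hB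
  have hBp : (0 : ℝ) < B := by linarith
  have hD4 : 4 ≤ D := by
    have : (4 : ℝ) ≤ (B : ℝ) ^ 4 := by
      calc (4 : ℝ) ≤ 256 ^ 4 := by norm_num
        _ ≤ (B : ℝ) ^ 4 := by gcongr
    linarith
  have hN0 : (0 : ℝ) < N := by linarith
  have hH0 : (0 : ℝ) < H := by exact_mod_cast hH
  have hsq : Real.sqrt B ^ 2 = B := Real.sq_sqrt hBp.le
  have hs0 : 0 < Real.sqrt B := Real.sqrt_pos.2 hBp
  have hs1 : 1 ≤ Real.sqrt B := by
    rw [Real.one_le_sqrt]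
    linarith
  have hz4 : (zs : ℝ) ^ 4 ≤ Real.sqrt B := by
    have hzp : (0 : ℝ) < zs := by exact_mod_cast hz
    rw [Real.le_sqrt' (by positivity)]
    have : (zs : ℝ) ^ 8 ≤ (B : ℝ) := by exact_mod_cast hz8
    calc ((zs : ℝ) ^ 4) ^ 2 = (zs : ℝ) ^ 8 := by ring
      _ ≤ (B : ℝ) := this
  have hz2B : zs ^ 2 ≤ B := (Nat.pow_le_pow_right hz (by norm_num)).trans hz8
  -- the fluctuations
  have hfl : ∑ d ∈ Pool.Agent.Helper66.AF.BT.D zs, ∑ d' ∈ Pool.Agent.Helper66.AF.BT.D zs,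
        |VF N θ H (Nat.lcm d d') T - mF N H (Nat.lcm d d')| ≤ (zs : ℝ) ^ 2 * (N / B) := by
    have h1 : ∀ d ∈ Pool.Agent.Helper66.AF.BT.D zs, ∀ d' ∈ Pool.Agent.Helper66.AF.BT.D zs,
        |VF N θ H (Nat.lcm d d') T - mF N H (Nat.lcm d d')| ≤ (N : ℝ) / B := by
      intro d hd d' hd'
      have hd1 := (Pool.Agent.Helper66.AF.BT.mem_D.1 hd).1
      have hd2 := (Pool.Agent.Helper66.AF.BT.mem_D.1 hd').1
      refine fluct_large N θ D hD4 hDN hF B H _ (by omega) hBD hH hH2 (Nat.lcm_pos hd1.1 hd2.1) ?_ T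
      have h2 : Nat.lcm d d' ≤ d * d' := Nat.le_of_dvd (Nat.mul_pos hd1.1 hd2.1) (Nat.lcm_dvd_mul d d')
      have h3 : d * d' ≤ zs * zs := Nat.mul_le_mul hd1.2 hd2.2
      have h4 : zs * zs = zs ^ 2 := by ring
      omega
    have hc : ((Pool.Agent.Helper66.AF.BT.D zs).card : ℝ) ≤ zs := by
      have : (Pool.Agent.Helper66.AF.BT.D zs).card ≤ (Finset.Icc 1 zs).card := Finset.card_filter_le _ _
      rw [Nat.card_Icc, Nat.add_sub_cancel] at this
      exact_mod_cast this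
    calc _ ≤ ∑ d ∈ Pool.Agent.Helper66.AF.BT.D zs, ∑ d' ∈ Pool.Agent.Helper66.AF.BT.D zs, (N : ℝ) / B :=
          Finset.sum_le_sum fun d hd => Finset.sum_le_sum fun d' hd' => h1 d hd d' hd'
      _ = (Pool.Agent.Helper66.AF.BT.D zs).card * ((Pool.Agent.Helper66.AF.BT.D zs).card * ((N : ℝ) / B)) := by
          simp only [Finset.sum_const, nsmul_eq_mul]
      _ ≤ zs * (zs * ((N : ℝ) / B)) := by gcongr
      _ = _ := by ring
  have hme := major_mean N zs H hz hH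
  have hex := major_expand N zs H θ T hz
  have hA : (N : ℝ) / H * (H / Pool.Agent.Helper66.AF.BT.G zs + (zs : ℝ) ^ 4) =
      N / Pool.Agent.Helper66.AF.BT.G zs + N * (zs : ℝ) ^ 4 / H := by
    field_simp
  have hHB : (B : ℝ) ^ 3 ≤ H := by
    have h1 : (N : ℝ) < B * H := by exact_mod_cast hH2
    have h2 : (B : ℝ) ^ 4 < B * H := by linarith
    have h3 : (B : ℝ) * (B : ℝ) ^ 3 < (B : ℝ) * (H : ℝ) := by
      calc (B : ℝ) * (B : ℝ) ^ 3 = (B : ℝ) ^ 4 := by ring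
        _ < (B : ℝ) * (H : ℝ) := h2
    exact (lt_of_mul_lt_mul_left h3 hBp.le).le
  have hBH : (B : ℝ) ≤ H := by
    have : (B : ℝ) ≤ (B : ℝ) ^ 3 := by nlinarith [sq_nonneg ((B : ℝ) - 1)]
    linarith
  have hE1 : N * (zs : ℝ) ^ 4 / H ≤ N / Real.sqrt B := by
    rw [div_le_div_iff₀ hH0 hs0]
    calc (N : ℝ) * (zs : ℝ) ^ 4 * Real.sqrt B ≤ N * Real.sqrt B * Real.sqrt B := by gcongr
      _ = N * Real.sqrt B ^ 2 := by ring
      _ = N * B := by rw [hsq]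
      _ ≤ N * H := by gcongr
  have hE2 : (zs : ℝ) ^ 2 * ((zs : ℝ) ^ 2 * (N / B)) ≤ N / Real.sqrt B := by
    calc (zs : ℝ) ^ 2 * ((zs : ℝ) ^ 2 * (N / B)) = (zs : ℝ) ^ 4 * (N / B) := by ring
      _ ≤ Real.sqrt B * (N / B) := by gcongr
      _ = Real.sqrt B * (N / Real.sqrt B ^ 2) := by rw [hsq]
      _ = N / Real.sqrt B := by field_simp
  have h5 := mul_le_mul_of_nonneg_left hfl (by positivity : (0 : ℝ) ≤ (zs : ℝ) ^ 2)
  have h6 : 2 * (N : ℝ) / Real.sqrt B = N / Real.sqrt B + N / Real.sqrt B := by ring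
  rw [h6]
  linarith

/-- the eighth root -/
private lemma a4_root (B : ℕ) (hB : 256 ≤ B) : ∃ zs : ℕ, 2 ≤ zs ∧ zs ^ 8 ≤ B ∧ Real.log B ≤ 16 * Real.log zs := by
  refine ⟨Nat.sqrt (Nat.sqrt (Nat.sqrt B)), ?_, ?_, ?_⟩
  · rw [Nat.le_sqrt, Nat.le_sqrt, Nat.le_sqrt]
    omega
  · have h1 := Nat.sqrt_le' (Nat.sqrt (Nat.sqrt B))
    have h2 := Nat.sqrt_le' (Nat.sqrt B)
    have h3 := Nat.sqrt_le' B
    set s := Nat.sqrt (Nat.sqrt (Nat.sqrt B))
    calc s ^ 8 = ((s ^ 2) ^ 2) ^ 2 := by ring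
      _ ≤ ((Nat.sqrt (Nat.sqrt B)) ^ 2) ^ 2 := by gcongr
      _ ≤ (Nat.sqrt B) ^ 2 := by gcongr
      _ ≤ B := h3
  · set s := Nat.sqrt (Nat.sqrt (Nat.sqrt B)) with hs
    have hs2 : 2 ≤ s := by
      rw [hs, Nat.le_sqrt, Nat.le_sqrt, Nat.le_sqrt]
      omega
    have h1 : Nat.sqrt (Nat.sqrt B) < (s + 1) ^ 2 := Nat.lt_succ_sqrt' _
    have h2 : Nat.sqrt B < (Nat.sqrt (Nat.sqrt B) + 1) ^ 2 := Nat.lt_succ_sqrt' _
    have h3 : B < (Nat.sqrt B + 1) ^ 2 := Nat.lt_succ_sqrt' _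
    have h4 : B ≤ (s + 1) ^ 8 := by
      calc B ≤ (Nat.sqrt B + 1) ^ 2 := h3.le
        _ ≤ ((Nat.sqrt (Nat.sqrt B) + 1) ^ 2) ^ 2 := by gcongr; omega
        _ ≤ (((s + 1) ^ 2) ^ 2) ^ 2 := by gcongr; omega
        _ = (s + 1) ^ 8 := by ring
    have h5 : s + 1 ≤ s ^ 2 := by nlinarith
    have h6 : B ≤ s ^ 16 := by
      calc B ≤ (s + 1) ^ 8 := h4
        _ ≤ (s ^ 2) ^ 8 := by gcongr
        _ = s ^ 16 := by ring
    have h7 : (B : ℝ) ≤ (s : ℝ) ^ 16 := by exact_mod_cast h6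
    have h8 : Real.log B ≤ Real.log ((s : ℝ) ^ 16) :=
      Real.log_le_log (by exact_mod_cast (by omega : 0 < B)) h7
    rw [Real.log_pow] at h8
    exact_mod_cast h8

theorem top_sum : ∃ C : ℝ, 0 < C ∧ ∃ B1 : ℕ, ∀ (N B H0 : ℕ) (θ D : ℝ), Far N θ D → D ≤ N → B1 ≤ B → (B : ℝ) ^ 4 ≤ D →
    1 ≤ H0 → N < B * H0 → H0 ≤ N → ∀ T : Finset ℕ,
    ∑ p ∈ (PP N).filter (fun p => H0 ≤ p), ‖XX N θ p T‖ ^ 2 ≤ C * N * (1 + Real.log ((N : ℝ) / H0)) / Real.log B := by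
  classical
  refine ⟨2 * (16 * Pool.Agent.Helper66.AF.BT.C2 + 4), by
    have := Pool.Agent.Helper66.AF.BT.one_le_C2; linarith, 256, ?_⟩
  intro N B H0 θ D hF hDN hB hBD hH0 hH2 hH0N T
  obtain ⟨zs, hz2, hz8, hzl⟩ := a4_root B hB
  have hz : 1 ≤ zs := by omega
  have hG := Pool.Agent.Helper66.AF.BT.G_pos hz
  have hC2 := Pool.Agent.Helper66.AF.BT.one_le_C2
  have hB0 : (256 : ℝ) ≤ B := by exact_mod_cast hB
  have hlogB : 0 < Real.log B := Real.log_pos (by linarith)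
  have hzB : zs < B := by
    have h1 : zs < zs ^ 8 := by
      calc zs = zs ^ 1 := (pow_one zs).symm
        _ < zs ^ 8 := Nat.pow_lt_pow_right (by omega) (by norm_num)
    omega
  have hBH : B ≤ H0 := by
    have h1 : (N : ℝ) < B * H0 := by exact_mod_cast hH2
    have h2 : (B : ℝ) ^ 4 < B * H0 := by linarith
    have h3 : (B : ℝ) * (B : ℝ) ^ 3 < (B : ℝ) * (H0 : ℝ) := by
      calc (B : ℝ) * (B : ℝ) ^ 3 = (B : ℝ) ^ 4 := by ring
        _ < (B : ℝ) * (H0 : ℝ) := h2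
    have h4 := lt_of_mul_lt_mul_left h3 (by linarith : (0 : ℝ) ≤ B)
    have h5 : (B : ℝ) ≤ (B : ℝ) ^ 3 := by nlinarith [sq_nonneg ((B : ℝ) - 1)]
    have h6 : (B : ℝ) ≤ H0 := by linarith
    exact_mod_cast h6
  -- one block
  set E : ℝ := (16 * Pool.Agent.Helper66.AF.BT.C2 + 4) * N / Real.log B with hE
  have hNn : (0 : ℝ) ≤ N := Nat.cast_nonneg N
  have hblock : ∀ i : ℕ, ∑ l ∈ Finset.Ico (H0 * 2 ^ i) (2 * (H0 * 2 ^ i)), aj zs l * ‖XP N θ l T‖ ^ 2 ≤ E := by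
    intro i
    have hp : 1 ≤ 2 ^ i := Nat.one_le_two_pow
    have h1 := a4_one N B (H0 * 2 ^ i) θ D hF hDN hB hBD (Nat.mul_pos hH0 hp)
      (hH2.trans_le (Nat.mul_le_mul_left B (Nat.le_mul_of_pos_right H0 hp))) T zs hz hz8
    refine h1.trans ?_
    have h2 := Pool.Agent.Helper66.AF.BT.G_lower hz
    have h3 : (N : ℝ) / Pool.Agent.Helper66.AF.BT.G zs ≤ 16 * Pool.Agent.Helper66.AF.BT.C2 * N / Real.log B := by
      rw [div_le_div_iff₀ hG hlogB]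
      have h4 : Real.log B ≤ 16 * (Pool.Agent.Helper66.AF.BT.C2 * Pool.Agent.Helper66.AF.BT.G zs) := by linarith
      calc (N : ℝ) * Real.log B ≤ N * (16 * (Pool.Agent.Helper66.AF.BT.C2 * Pool.Agent.Helper66.AF.BT.G zs)) :=
            mul_le_mul_of_nonneg_left h4 hNn
        _ = _ := by ring
    have hs0 : 0 < Real.sqrt B := Real.sqrt_pos.2 (by linarith)
    have h5 : 2 * (N : ℝ) / Real.sqrt B ≤ 4 * N / Real.log B := by
      rw [div_le_div_iff₀ hs0 hlogB]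
      have h6 : Real.log B ≤ 2 * Real.sqrt B := by
        have h7 : Real.log B = 2 * Real.log (Real.sqrt B) := by
          rw [Real.log_sqrt (by linarith)]
          ring
        have h8 := Real.log_le_sub_one_of_pos hs0
        rw [h7]
        linarith
      calc 2 * (N : ℝ) * Real.log B ≤ 2 * N * (2 * Real.sqrt B) := by gcongr
        _ = _ := by ring
    have h9 : E = 16 * Pool.Agent.Helper66.AF.BT.C2 * N / Real.log B + 4 * N / Real.log B := by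
      rw [hE]
      ring
    rw [h9]
    linarith
  have hE0 : 0 ≤ E := by rw [hE]; positivity
  -- the sum over the primes
  have hnn : ∀ l : ℕ, 0 ≤ aj zs l * ‖XP N θ l T‖ ^ 2 := by
    intro l
    unfold aj
    positivity
  have hmem : ∀ l ∈ (PP N).filter (fun p => H0 ≤ p), l.Prime ∧ H0 ≤ l ∧ l ≤ N := by
    intro l hl
    unfold PP at hl
    simp only [Finset.mem_filter, Finset.mem_Icc] at hl
    exact ⟨hl.1.2, hl.2, hl.1.1.2⟩
  have hval : ∀ l ∈ (PP N).filter (fun p => H0 ≤ p), ‖XX N θ l T‖ ^ 2 = aj zs l * ‖XP N θ l T‖ ^ 2 := by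
    intro l hl
    obtain ⟨hpr, hBl, _⟩ := hmem l hl
    have h1 : XX N θ l T = XP N θ l T := by
      unfold XX XP MS MP
      rw [hpr.minFac_eq]
    have h2 : (Pool.Agent.Helper66.AF.BT.D zs).filter (fun d => d ∣ l) = {1} := by
      ext d
      simp only [Finset.mem_filter, Finset.mem_singleton]
      constructor
      · rintro ⟨hd, hdl⟩
        rcases (Nat.dvd_prime hpr).1 hdl with h | h
        · exact h
        · have := (Pool.Agent.Helper66.AF.BT.mem_D.1 hd).1.2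
          omega
      · rintro rfl
        exact ⟨Pool.Agent.Helper66.AF.BT.one_mem_D hz, one_dvd l⟩
    have h3 : aj zs l = 1 := by
      unfold aj
      rw [h2, Finset.sum_singleton, Pool.Agent.Helper66.AF.BT.lam_one hz, one_pow]
    rw [h1, h3, one_mul]
  rw [Finset.sum_congr rfl hval]
  set K : ℕ := Nat.log 2 (N / H0) with hK
  have hmaps : ∀ l ∈ (PP N).filter (fun p => H0 ≤ p), Nat.log 2 (l / H0) ∈ Finset.range (K + 1) := by
    intro l hl
    obtain ⟨_, _, hlN⟩ := hmem l hl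
    rw [Finset.mem_range]
    have : Nat.log 2 (l / H0) ≤ Nat.log 2 (N / H0) := Nat.log_mono_right (Nat.div_le_div_right hlN)
    omega
  rw [← Finset.sum_fiberwise_of_maps_to hmaps]
  have hsum : ∑ i ∈ Finset.range (K + 1), ∑ l ∈ ((PP N).filter (fun p => H0 ≤ p)).filter (fun l => Nat.log 2 (l / H0) = i),
      aj zs l * ‖XP N θ l T‖ ^ 2 ≤ ∑ _i ∈ Finset.range (K + 1), E := by
    refine Finset.sum_le_sum fun i _ => ?_
    refine le_trans ?_ (hblock i)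
    refine Finset.sum_le_sum_of_subset_of_nonneg ?_ fun l _ _ => hnn l
    intro l hl
    rw [Finset.mem_filter] at hl
    obtain ⟨hl, rfl⟩ := hl
    obtain ⟨_, hBl, _⟩ := hmem l hl
    have hq : l / H0 ≠ 0 := by
      have := Nat.div_pos hBl hH0
      omega
    rw [Finset.mem_Ico]
    constructor
    · have h1 : 2 ^ Nat.log 2 (l / H0) ≤ l / H0 := Nat.pow_log_le_self 2 hq
      have h2 := Nat.mul_le_mul_left H0 h1
      exact h2.trans (Nat.mul_div_le l H0)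
    · have h1 : l / H0 < 2 ^ (Nat.log 2 (l / H0) + 1) := Nat.lt_pow_succ_log_self (by norm_num) _
      have h2 := (Nat.div_lt_iff_lt_mul hH0).1 h1
      calc l < 2 ^ (Nat.log 2 (l / H0) + 1) * H0 := h2
        _ = 2 * (H0 * 2 ^ Nat.log 2 (l / H0)) := by rw [pow_succ]; ring
  refine hsum.trans ?_
  rw [Finset.sum_const, Finset.card_range, nsmul_eq_mul]
  -- the number of blocks
  have hH0r : (0 : ℝ) < H0 := by exact_mod_cast hH0
  have hdiv : 1 ≤ N / H0 := Nat.div_pos hH0N hH0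
  have hKlog : (K : ℝ) * Real.log 2 ≤ Real.log ((N : ℝ) / H0) := by
    have h1 : 2 ^ K ≤ N / H0 := Nat.pow_log_le_self 2 (by omega)
    have h2 : (2 : ℝ) ^ K ≤ ((N / H0 : ℕ) : ℝ) := by exact_mod_cast h1
    have h3 : ((N / H0 : ℕ) : ℝ) ≤ (N : ℝ) / H0 := Nat.cast_div_le
    have h4 : Real.log ((2 : ℝ) ^ K) ≤ Real.log ((N : ℝ) / H0) :=
      Real.log_le_log (by positivity) (h2.trans h3)
    rwa [Real.log_pow] at h4
  have hl2 : (1 : ℝ) / 2 ≤ Real.log 2 := by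
    have := Real.log_two_gt_d9
    linarith
  have hKle : ((K + 1 : ℕ) : ℝ) ≤ 2 * (1 + Real.log ((N : ℝ) / H0)) := by
    push_cast
    have h0 : (0 : ℝ) ≤ K := Nat.cast_nonneg K
    have h1 : (K : ℝ) * (1 / 2) ≤ K * Real.log 2 := mul_le_mul_of_nonneg_left hl2 h0
    linarith
  calc ((K + 1 : ℕ) : ℝ) * E ≤ 2 * (1 + Real.log ((N : ℝ) / H0)) * E := mul_le_mul_of_nonneg_right hKle hE0
    _ = 2 * (16 * Pool.Agent.Helper66.AF.BT.C2 + 4) * N * (1 + Real.log ((N : ℝ) / H0)) / Real.log B := by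
        rw [hE]
        ring

end Pool.Agent.Helper51.EA
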