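import Pool.Agent.Helper5.EA.Basic
import Pool.Agent.Helper53.EA.A4
import Pool.Agent.Helper54.EA.A2

/-!
# Project EA, block B3: the conditional variance at one far point, some constant
-/

set_option autoImplicit false

namespace Pool.Agent.Helper51.EA

open Finset Pool.Agent.Helper5.RM Pool.Agent.Helper5.RS

/-- the probability bound of one block is covered by the last term of `Par.hfin` -/
lemma par_piece1 {N : ℕ} {D : ℝ} {B z k w I : ℕ} {η : ℝ} (hP : Par N D B z k w I η) :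
    (1000 * (N : ℝ) ^ 2 * LL N ^ (2 * w + 5) * (128 * LL N / B) ^ (η / 4) / ((N : ℝ) / LL N) ^ 2) ^ k ≤
      1 / (2 * (B : ℝ) * LL N * D ^ 4) := by
  have hN4 : (4 : ℝ) ≤ N := hP.hD4.trans hP.hDN
  have hN0 : (0 : ℝ) < N := by linarith
  have hD0 : (0 : ℝ) < D := by
    have := hP.hD4
    linarith
  have hB0 : (0 : ℝ) < B := by
    have := hP.hB36
    exact_mod_cast (by omega : 0 < B)
  have hB36 : (36 : ℝ) ≤ B := by exact_mod_cast hP.hB36
  have hk := hP.hk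
  have hη := hP.hη0
  have hη1 := hP.hη1
  have hlD : 1 ≤ Real.log D := by
    rw [Real.le_log_iff_exp_le hD0]
    have := hP.hD4
    exact (Real.exp_one_lt_d9.le.trans (by norm_num)).trans this
  have hL1' : 1 ≤ LL N := by
    have : 0 ≤ Real.log N := Real.log_nonneg (by linarith)
    unfold LL
    linarith
  obtain ⟨L, hL⟩ : ∃ L : ℝ, L = LL N := ⟨_, rfl⟩
  have hfin := hP.hfin
  rw [← hL] at hfin hL1' ⊢
  have hL0 : 0 < L := by linarith
  have hs0 : 0 < Real.sqrt B := Real.sqrt_pos.2 hB0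
  have hss : Real.sqrt B * Real.sqrt B = B := Real.mul_self_sqrt hB0.le
  have hs6 : 6 ≤ Real.sqrt B := by
    apply Real.le_sqrt_of_sq_le
    linarith
  have h1 : 128 * L / B ≤ (4 * L) * (6 / Real.sqrt B) := by
    rw [← mul_div_assoc, div_le_div_iff₀ hB0 hs0]
    calc 128 * L * Real.sqrt B ≤ (24 * Real.sqrt B) * L * Real.sqrt B := by
          have : 128 ≤ 24 * Real.sqrt B := by linarith
          gcongr
      _ = 4 * L * 6 * (Real.sqrt B * Real.sqrt B) := by ring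
      _ = 4 * L * 6 * B := by rw [hss]
  have h2 : (128 * L / B) ^ (η / 4) ≤ (4 * L) * (6 / Real.sqrt B) ^ (η / 4) := by
    calc (128 * L / B) ^ (η / 4) ≤ ((4 * L) * (6 / Real.sqrt B)) ^ (η / 4) :=
          Real.rpow_le_rpow (by positivity) h1 (by linarith)
      _ = (4 * L) ^ (η / 4) * (6 / Real.sqrt B) ^ (η / 4) := Real.mul_rpow (by positivity) (by positivity)
      _ ≤ (4 * L) ^ (1 : ℝ) * (6 / Real.sqrt B) ^ (η / 4) := by
          have : (4 * L) ^ (η / 4) ≤ (4 * L) ^ (1 : ℝ) :=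
            Real.rpow_le_rpow_of_exponent_le (by linarith) (by linarith)
          gcongr
      _ = _ := by rw [Real.rpow_one]
  have h3 : (4000 : ℝ) ≤ 72 * (10 * Real.log D) ^ (2 * I) := by
    have e1 : (1 : ℝ) ≤ 10 * Real.log D := by linarith
    have hI := hP.hI
    have e2 : (10 : ℝ) ^ 2 ≤ (10 * Real.log D) ^ (2 * I) := by
      calc (10 : ℝ) ^ 2 ≤ (10 * Real.log D) ^ 2 := pow_le_pow_left₀ (by norm_num) (by linarith) 2
        _ ≤ (10 * Real.log D) ^ (2 * I) := pow_le_pow_right₀ e1 (by omega)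
    linarith
  have hval : 1000 * (N : ℝ) ^ 2 * L ^ (2 * w + 5) * (128 * L / B) ^ (η / 4) / ((N : ℝ) / L) ^ 2 =
      1000 * L ^ (2 * w + 7) * (128 * L / B) ^ (η / 4) := by
    field_simp
    ring
  rw [hval]
  have h4 : 1000 * L ^ (2 * w + 7) * (128 * L / B) ^ (η / 4) ≤
      72 * L ^ (2 * w + 9) * (6 / Real.sqrt B) ^ (η / 4) * (10 * Real.log D) ^ (2 * I) := by
    have e1 : (0 : ℝ) ≤ (6 / Real.sqrt B) ^ (η / 4) := by positivity
    calc 1000 * L ^ (2 * w + 7) * (128 * L / B) ^ (η / 4)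
        ≤ 1000 * L ^ (2 * w + 7) * ((4 * L) * (6 / Real.sqrt B) ^ (η / 4)) := by gcongr
      _ = 4000 * L ^ (2 * w + 8) * (6 / Real.sqrt B) ^ (η / 4) := by ring
      _ ≤ (72 * (10 * Real.log D) ^ (2 * I)) * L ^ (2 * w + 9) * (6 / Real.sqrt B) ^ (η / 4) := by
          have e3 : L ^ (2 * w + 8) ≤ L ^ (2 * w + 9) := pow_le_pow_right₀ hL1' (by omega)
          have e4 : (0 : ℝ) ≤ (10 * Real.log D) ^ (2 * I) := by linarith
          gcongr
      _ = _ := by ring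
  have h5 : (1000 * L ^ (2 * w + 7) * (128 * L / B) ^ (η / 4)) ^ k ≤
      (72 * L ^ (2 * w + 9) * (6 / Real.sqrt B) ^ (η / 4) * (10 * Real.log D) ^ (2 * I)) ^ k :=
    pow_le_pow_left₀ (by positivity) h4 k
  refine h5.trans ?_
  rw [le_div_iff₀ (by positivity)]
  obtain ⟨X, hX⟩ : ∃ X : ℝ, X = (72 * L ^ (2 * w + 9) * (6 / Real.sqrt B) ^ (η / 4) * (10 * Real.log D) ^ (2 * I)) ^ k := ⟨_, rfl⟩
  have hX0 : 0 ≤ X := by
    rw [hX]
    have : (0 : ℝ) ≤ 10 * Real.log D := by linarith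
    positivity
  have h6 : (I : ℝ) * (2 * B * L * X) ≤ 1 / D ^ 4 := by
    refine le_trans ?_ hfin
    rw [hX]
    have e1 : 0 ≤ (E0 N z (2 * k - 1) / N) ^ k := by
      have : 0 ≤ E0 N z (2 * k - 1) := by
        unfold E0
        rw [← hL]
        positivity
      positivity
    have e2 : (0 : ℝ) ≤ 2 * (I : ℝ) ^ 2 / D ^ 5 := by positivity
    have e3 : 0 ≤ 2 * L * (18 * L ^ (2 * w + 5) * (128 * L / B) ^ (η / 4)) ^ k := by positivity
    linarith
  rw [← hX]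
  have hI1 : (1 : ℝ) ≤ I := by exact_mod_cast hP.hI
  rw [le_div_iff₀ (by positivity)] at h6
  calc X * (2 * B * L * D ^ 4) = 1 * (2 * B * L * X) * D ^ 4 := by ring
    _ ≤ I * (2 * B * L * X) * D ^ 4 := by gcongr
    _ ≤ 1 := h6

/-- B3. -/
theorem v_all : ∃ (C6 : ℝ) (B1 : ℕ), 0 < C6 ∧ ∀ (N : ℕ) (θ D : ℝ), Far N θ D → ∀ (B z k w I : ℕ) (η : ℝ),
    Par N D B z k w I η → B1 ≤ B → pr (PP N) (fun T => C6 * N < ∑ l ∈ LI N B z 1, ‖XX N θ l T‖ ^ 2) ≤ 1 / D ^ 4 := by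
  obtain ⟨C, hC, B1, htop⟩ := top_sum
  refine ⟨3 + 2 * C, B1, by positivity, ?_⟩
  intro N θ D hF B z k w I η hP hB1
  have hN4 : (4 : ℝ) ≤ N := hP.hD4.trans hP.hDN
  have hN0 : (0 : ℝ) < N := by linarith
  have hD0 : 0 < D := by
    have := hP.hD4
    linarith
  have hLL : LL N = 1 + Real.log N := rfl
  have hlog0 : 0 ≤ Real.log N := Real.log_nonneg (by linarith)
  have hL1 : 1 ≤ LL N := by linarith
  have hL0 : 0 < LL N := by linarith
  have hB2 : 2 ≤ B := by have := hP.hB36; omega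
  have hB1r : (1 : ℝ) ≤ B := by exact_mod_cast (by omega : 1 ≤ B)
  have hB36 : (36 : ℝ) ≤ B := by exact_mod_cast hP.hB36
  have hBD : (B : ℝ) ≤ D := by
    refine le_trans ?_ hP.hBD
    calc (B : ℝ) = B ^ 1 := (pow_one _).symm
      _ ≤ (B : ℝ) ^ 4 := pow_le_pow_right₀ hB1r (by norm_num)
  have hBB : B * B ≤ N := by
    have h1 : (B : ℝ) ^ 2 ≤ N := (pow_le_pow_right₀ hB1r (by norm_num : 2 ≤ 8)).trans hP.hBN
    have h2 : ((B * B : ℕ) : ℝ) ≤ N := by
      push_cast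
      nlinarith
    exact_mod_cast h2
  obtain ⟨n, hn1, hn2, hn3, hn4, hn5⟩ := exists_H0 hB2 hBB
  have hnL : (n : ℝ) ≤ 2 * LL N := by
    have h1 : (2 : ℝ) ^ n ≤ N := by exact_mod_cast hn5
    have h2 := Real.log_le_log (by positivity) h1
    rw [Real.log_pow] at h2
    have h3 : (1 / 2 : ℝ) ≤ Real.log 2 := by
      have := Real.log_two_gt_d9
      linarith
    have h4 : (n : ℝ) * (1 / 2) ≤ n * Real.log 2 := by gcongr
    linarith
  obtain ⟨P, hPdef⟩ : ∃ P : ℕ → Finset ℕ, P = fun i => (PP N).filter (fun p => B * 2 ^ i ≤ p ∧ p < B * 2 ^ (i + 1)) :=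
    ⟨_, rfl⟩
  have hPp : ∀ i ∈ range n, ∀ p ∈ P i, p.Prime ∧ B * 2 ^ i ≤ p ∧ p < 2 * (B * 2 ^ i) := by
    intro i _ p hp
    rw [hPdef] at hp
    have hp' := mem_filter.1 hp
    refine ⟨(mem_PP.1 hp'.1).1, hp'.2.1, ?_⟩
    have : B * 2 ^ (i + 1) = 2 * (B * 2 ^ i) := by ring
    omega
  have hHB : ∀ i ∈ range n, B ≤ B * 2 ^ i := fun i _ => Nat.le_mul_of_pos_right _ (by positivity)
  have hHN : ∀ i ∈ range n, B * (B * 2 ^ i) ≤ N := fun i hi => hn4 i (mem_range.1 hi)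
  have hm : pr (PP N) (fun T => ∃ j ∈ range n, (N : ℝ) / LL N <
      |∑ p ∈ P j, ‖XG N (Icc 1 N) θ p T‖ ^ 2 - ∑ p ∈ P j, ((MG N (Icc 1 N) p).card : ℝ)|) ≤
      n * (1 / (2 * (B : ℝ) * LL N * D ^ 4)) := by
    refine (pr_exists (PP N) (range n) _).trans ?_
    have hcard : (n : ℝ) = ((range n).card : ℝ) := by rw [card_range]
    rw [hcard, ← nsmul_eq_mul]
    refine Finset.sum_le_card_nsmul _ _ _ fun j hj => ?_
    refine (fl_minus N θ D hP.hD4 hP.hDN hF k w η hP.hk hP.hη0 hP.hη1 hP.hw B (B * 2 ^ j) hP.hBL hBD (hHB j hj)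
      (hHN j hj) (Icc 1 N) (P j) (hPp j hj) ((N : ℝ) / LL N) (by positivity)).trans ?_
    exact par_piece1 hP
  -- the large primes
  have hH0N : B * 2 ^ n ≤ N := by
    have h1 : 2 * (B * 2 ^ n) ≤ B * (B * 2 ^ n) := Nat.mul_le_mul_right _ hB2
    omega
  have hH01 : 1 ≤ B * 2 ^ n := Nat.mul_pos (by omega) (by positivity)
  have htop' : ∀ T : Finset ℕ, ∑ p ∈ (PP N).filter (fun p => B * 2 ^ n ≤ p), ‖XX N θ p T‖ ^ 2 ≤ 2 * C * N := by
    intro T
    refine (htop N B (B * 2 ^ n) θ D hF hP.hDN hB1 hP.hBD hH01 hn2 hH0N T).trans ?_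
    have hH0r : (0 : ℝ) < ((B * 2 ^ n : ℕ) : ℝ) := by exact_mod_cast hH01
    have hlB : 1 ≤ Real.log B := by
      rw [Real.le_log_iff_exp_le (by linarith)]
      exact (Real.exp_one_lt_d9.le.trans (by norm_num)).trans hB36
    have h1 : Real.log ((N : ℝ) / ((B * 2 ^ n : ℕ) : ℝ)) ≤ Real.log B := by
      apply Real.log_le_log (by positivity)
      rw [div_le_iff₀ hH0r]
      exact_mod_cast hn2.le
    rw [div_le_iff₀ (by linarith)]
    calc C * N * (1 + Real.log ((N : ℝ) / ((B * 2 ^ n : ℕ) : ℝ))) ≤ C * N * (2 * Real.log B) := by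
          have : 1 + Real.log ((N : ℝ) / ((B * 2 ^ n : ℕ) : ℝ)) ≤ 2 * Real.log B := by linarith
          gcongr
      _ = 2 * C * N * Real.log B := by ring
  have hsplit : (PP N).filter (fun p => B ≤ p) = (PP N).filter (fun p => B ≤ p ∧ p < B * 2 ^ n) ∪
      (PP N).filter (fun p => B * 2 ^ n ≤ p) := by
    ext p
    rw [mem_union, mem_filter, mem_filter, mem_filter]
    have : B ≤ B * 2 ^ n := Nat.le_mul_of_pos_right _ (by positivity)
    constructor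
    · rintro ⟨ha, hb⟩
      rcases Nat.lt_or_ge p (B * 2 ^ n) with h | h
      · exact Or.inl ⟨ha, hb, h⟩
      · exact Or.inr ⟨ha, h⟩
    · rintro (⟨ha, hb, hc⟩ | ⟨ha, hb⟩)
      · exact ⟨ha, hb⟩
      · exact ⟨ha, by omega⟩
  have hdisj : Disjoint ((PP N).filter (fun p => B ≤ p ∧ p < B * 2 ^ n)) ((PP N).filter (fun p => B * 2 ^ n ≤ p)) := by
    rw [disjoint_left]
    intro p h1 h2
    rw [mem_filter] at h1 h2
    omega
  have hLI : LI N B z 1 ⊆ (PP N).filter (fun p => B ≤ p) := by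
    intro l hl
    unfold LI LA at hl
    rw [mem_filter, mem_filter, mem_Icc] at hl
    obtain ⟨⟨⟨h1, h2⟩, h3, h4, h5⟩, h6, h7⟩ := hl
    rw [mem_filter, mem_PP]
    unfold om at h7
    obtain ⟨q, hq⟩ := Finset.card_eq_one.1 h7
    have h8 := Nat.prod_primeFactors_of_squarefree h3
    rw [hq, prod_singleton] at h8
    have h9 : q ∈ l.primeFactors := by rw [hq]; exact mem_singleton_self q
    have h10 := Nat.prime_of_mem_primeFactors h9
    rw [h8] at h10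
    exact ⟨⟨h10, h2⟩, h4⟩
  have hcards : ∑ p ∈ (PP N).filter (fun p => B ≤ p ∧ p < B * 2 ^ n), ((MG N (Icc 1 N) p).card : ℝ) ≤ N := by
    have h1 : ∑ p ∈ (PP N).filter (fun p => B ≤ p ∧ p < B * 2 ^ n), (MG N (Icc 1 N) p).card ≤
        (Icc 1 N).card := by
      apply sum_MG_le (fun _ => Icc 1 N)
      · intro p hp
        exact (mem_PP.1 (mem_filter.1 hp).1).1
      · intro p hp m hm
        have hp1 := mem_PP.1 (mem_filter.1 hp).1
        unfold MG at hm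
        rw [mem_filter, mem_Icc] at hm
        rw [mem_Icc]
        refine ⟨Nat.mul_pos hp1.1.pos (by omega), ?_⟩
        calc p * m ≤ p * (N / p) := Nat.mul_le_mul_left _ hm.1.2
          _ ≤ N := Nat.mul_div_le _ _
    rw [Nat.card_Icc, Nat.add_sub_cancel] at h1
    exact_mod_cast h1
  have hnt : (n : ℝ) * ((N : ℝ) / LL N) ≤ 2 * N := by
    calc (n : ℝ) * ((N : ℝ) / LL N) ≤ 2 * LL N * ((N : ℝ) / LL N) := by gcongr
      _ = 2 * N := by field_simp
  -- the conclusion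
  have hdet : ∀ T ⊆ PP N, (3 + 2 * C) * N < ∑ l ∈ LI N B z 1, ‖XX N θ l T‖ ^ 2 →
      ∃ j ∈ range n, (N : ℝ) / LL N <
        |∑ p ∈ P j, ‖XG N (Icc 1 N) θ p T‖ ^ 2 - ∑ p ∈ P j, ((MG N (Icc 1 N) p).card : ℝ)| := by
    intro T _ hlt
    by_contra hc1
    push Not at hc1
    apply absurd hlt
    rw [not_lt]
    calc ∑ l ∈ LI N B z 1, ‖XX N θ l T‖ ^ 2 ≤ ∑ l ∈ (PP N).filter (fun p => B ≤ p), ‖XX N θ l T‖ ^ 2 :=
          Finset.sum_le_sum_of_subset_of_nonneg hLI fun _ _ _ => by positivity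
      _ = ∑ l ∈ (PP N).filter (fun p => B ≤ p ∧ p < B * 2 ^ n), ‖XX N θ l T‖ ^ 2 +
          ∑ l ∈ (PP N).filter (fun p => B * 2 ^ n ≤ p), ‖XX N θ l T‖ ^ 2 := by
          rw [hsplit, sum_union hdisj]
      _ ≤ (N + 2 * N) + 2 * C * N := by
          refine add_le_add ?_ (htop' T)
          have e2 : ∑ p ∈ (PP N).filter (fun p => B ≤ p ∧ p < B * 2 ^ n), ‖XX N θ p T‖ ^ 2 =
              ∑ p ∈ (PP N).filter (fun p => B ≤ p ∧ p < B * 2 ^ n), ‖XG N (Icc 1 N) θ p T‖ ^ 2 := by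
            refine sum_congr rfl fun p hp => ?_
            rw [XX_eq_XG (mem_PP.1 (mem_filter.1 hp).1).1 θ T]
          have e3 : ∑ i ∈ range n, ∑ p ∈ P i, ‖XG N (Icc 1 N) θ p T‖ ^ 2 ≤
              ∑ i ∈ range n, (∑ p ∈ P i, ((MG N (Icc 1 N) p).card : ℝ) + (N : ℝ) / LL N) := by
            refine sum_le_sum fun i hi => ?_
            have := (abs_le.1 (hc1 i hi)).2
            linarith
          have e4 : ∑ i ∈ range n, ∑ p ∈ P i, ((MG N (Icc 1 N) p).card : ℝ) =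
              ∑ p ∈ (PP N).filter (fun p => B ≤ p ∧ p < B * 2 ^ n), ((MG N (Icc 1 N) p).card : ℝ) := by
            rw [sum_dyadic, hPdef]
          have e5 : ∑ p ∈ (PP N).filter (fun p => B ≤ p ∧ p < B * 2 ^ n), ‖XG N (Icc 1 N) θ p T‖ ^ 2 =
              ∑ i ∈ range n, ∑ p ∈ P i, ‖XG N (Icc 1 N) θ p T‖ ^ 2 := by
            rw [sum_dyadic, hPdef]
          rw [sum_add_distrib, sum_const, card_range, nsmul_eq_mul, e4] at e3
          rw [e2, e5]
          linarith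
      _ = (3 + 2 * C) * N := by ring
  refine (pr_mono hdet).trans (hm.trans ?_)
  have h1 : (n : ℝ) * (1 / (2 * (B : ℝ) * LL N * D ^ 4)) ≤ 2 * LL N * (1 / (2 * (B : ℝ) * LL N * D ^ 4)) := by
    gcongr
  refine h1.trans ?_
  have h2 : 2 * LL N * (1 / (2 * (B : ℝ) * LL N * D ^ 4)) = 1 / B * (1 / D ^ 4) := by
    field_simp
  rw [h2]
  have h3 : 1 / (B : ℝ) ≤ 1 := by
    rw [div_le_one (by positivity)]
    linarith
  calc 1 / (B : ℝ) * (1 / D ^ 4) ≤ 1 * (1 / D ^ 4) := by gcongr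
    _ = _ := one_mul _

end Pool.Agent.Helper51.EA
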