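import Pool.Agent.Helper96.EA.T5
import Pool.Agent.Helper11.EA3.Defs3

/-!
# Project EA (MP_b6b996_nt), block V12: some arc of length `N ^ (-κ)` carries no thick point
-/

set_option autoImplicit false

namespace Pool.Agent.Helper51.EA

open Finset Pool.Agent.Helper5.RM Pool.Agent.Helper5.RS MeasureTheory ProbabilityTheory

/-- the deterministic step: if every arc has a thick point then the thick points have measure at least `G η / N` -/
lemma arc_vol53 (F : ℝ → ℂ) (N G : ℕ) (η L A A' κ' : ℝ) (hN : 1 ≤ N) (hG : 1 ≤ G) (hGN : G ≤ N) (hη : 0 < η)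
    (hη1 : 2 * η ≤ 1) (hκ' : κ' ≤ 1 / G) (hL : ∀ x y : ℝ, ‖F x - F y‖ ≤ L * |x - y|) (hLA : 0 ≤ L)
    (hA : A' + L * (η / N) ≤ A) (hx : ∀ a : ℝ, ∃ x : ℝ, a ≤ x ∧ x ≤ a + κ' ∧ A ≤ ‖F x‖) :
    (G : ℝ) * (η / N) ≤ (volume {x : ℝ | x ∈ Set.Ico (0 : ℝ) 1 ∧ A' ≤ ‖F x‖}).toReal := by
  have hN0 : (0 : ℝ) < N := by exact_mod_cast hN
  have hG0 : (0 : ℝ) < G := by exact_mod_cast hG
  have hηN : 0 < η / N := by positivity
  have h2 : 2 * (η / N) ≤ 1 / G := by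
    rw [← mul_div_assoc, div_le_div_iff₀ hN0 hG0]
    have h3 : (G : ℝ) ≤ N := by exact_mod_cast hGN
    nlinarith
  choose X hX1 hX2 hX3 using hx
  -- the intervals
  obtain ⟨u, hu⟩ : ∃ u : ℕ → ℝ, u = fun i : ℕ => if X ((i : ℝ) / G) + η / N < ((i : ℝ) + 1) / G then X ((i : ℝ) / G) else X ((i : ℝ) / G) - η / N :=
    ⟨_, rfl⟩
  have hdiv : ∀ i : ℕ, ((i : ℝ) + 1) / G = i / G + 1 / G := fun i => add_div _ _ _
  have hsub : ∀ i : ℕ, Set.Ico (u i) (u i + η / N) ⊆ Set.Ico ((i : ℝ) / G) (((i : ℝ) + 1) / G) := by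
    intro i x hx
    rw [Set.mem_Ico] at hx ⊢
    have e1 := hX1 (i / G)
    have e2 := hX2 (i / G)
    have e3 := hdiv i
    rw [hu] at hx
    simp only at hx
    split_ifs at hx with h
    · constructor <;> linarith
    · push Not at h
      constructor <;> linarith
  have hnear : ∀ i : ℕ, ∀ x ∈ Set.Ico (u i) (u i + η / N), |x - X (i / G)| ≤ η / N := by
    intro i x hx
    rw [Set.mem_Ico, hu] at hx
    simp only at hx
    split_ifs at hx with h
    · rw [abs_le]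
      constructor <;> linarith
    · rw [abs_le]
      constructor <;> linarith
  have hdisj : Pairwise (Function.onFun Disjoint fun i : ℕ => Set.Ico (u i) (u i + η / N)) := by
    intro i j hij
    have h3 : ∀ i j : ℕ, i < j → Disjoint (Set.Ico (u i) (u i + η / N)) (Set.Ico (u j) (u j + η / N)) := by
      intro i j hij
      refine Set.disjoint_of_subset (hsub i) (hsub j) ?_
      rw [Set.disjoint_left]
      intro x h4 h5
      rw [Set.mem_Ico] at h4 h5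
      have h6 : ((i : ℝ) + 1) / G ≤ j / G := by
        apply div_le_div_of_nonneg_right _ hG0.le
        exact_mod_cast hij
      linarith
    rcases lt_or_gt_of_ne hij with h | h
    · exact h3 i j h
    · exact (h3 j i h).symm
  have hcov : (⋃ i ∈ range G, Set.Ico (u i) (u i + η / N)) ⊆ {x : ℝ | x ∈ Set.Ico (0 : ℝ) 1 ∧ A' ≤ ‖F x‖} := by
    intro x hx
    simp only [Set.mem_iUnion] at hx
    obtain ⟨i, hi, hx⟩ := hx
    rw [mem_range] at hi
    have h3 := hsub i hx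
    rw [Set.mem_Ico] at h3
    refine ⟨⟨le_trans (by positivity) h3.1, lt_of_lt_of_le h3.2 ?_⟩, ?_⟩
    · rw [div_le_one hG0]
      exact_mod_cast hi
    · have h4 := hL x (X (i / G))
      have h5 : L * |x - X (i / G)| ≤ L * (η / N) := mul_le_mul_of_nonneg_left (hnear i x hx) hLA
      have h6 := hX3 (i / G)
      have h7 : ‖F (X (i / G))‖ ≤ ‖F x‖ + ‖F x - F (X (i / G))‖ := by
        have := norm_sub_le (F x) (F x - F (X (i / G)))
        rwa [sub_sub_cancel] at this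
      linarith
  have hvol : volume (⋃ i ∈ range G, Set.Ico (u i) (u i + η / N)) = ENNReal.ofReal (G * (η / N)) := by
    rw [measure_biUnion_finset (fun i _ j _ hij => hdisj hij) fun i _ => measurableSet_Ico]
    have h3 : ∀ i : ℕ, volume (Set.Ico (u i) (u i + η / N)) = ENNReal.ofReal (η / N) := by
      intro i
      rw [Real.volume_Ico]
      congr 1
      ring
    rw [Finset.sum_congr rfl fun i _ => h3 i, Finset.sum_const, card_range, nsmul_eq_mul, ENNReal.ofReal_mul (by positivity),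
      ENNReal.ofReal_natCast]
  have hfin : volume {x : ℝ | x ∈ Set.Ico (0 : ℝ) 1 ∧ A' ≤ ‖F x‖} ≠ ⊤ := by
    refine ne_top_of_le_ne_top ?_ (measure_mono (t := Set.Ico (0 : ℝ) 1) fun x hx => hx.1)
    rw [Real.volume_Ico]
    exact ENNReal.ofReal_ne_top
  rw [← ENNReal.ofReal_le_iff_le_toReal hfin, ← hvol]
  exact measure_mono hcov

/-- V12 from T5, D3 (for `μ`, `ε`) and T4 -/
theorem arc_upper_of
    (hslow : ∀ (N : ℕ) (c : ℕ → ℂ) (x y M : ℝ), (∀ n ≤ N, ‖∑ m ∈ Icc 1 n, c m * e (m * x)‖ ≤ M) →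
      ‖∑ n ∈ Icc 1 N, c n * e (n * x) - ∑ n ∈ Icc 1 N, c n * e (n * y)‖ ≤ 4 * Real.pi * (N + 1) * |x - y| * M)
    {Ω : Type*} [MeasurableSpace Ω] (μ : Measure Ω) [IsProbabilityMeasure μ]
    (ε : Nat.Primes → Ω → ℝ) (hm : ∀ p, Measurable (ε p)) (hi : iIndepFun ε μ)
    (h2 : ∀ p, μ {ω | ε p ω = -1} = 1 / 2) (h1 : ∀ p, μ {ω | ε p ω = 1} = 1 / 2)
    (hup : ∀ δ : ℝ, 0 < δ → ∀ᵐ ω ∂μ, ∃ N0 : ℕ, ∀ N : ℕ, N0 ≤ N → ∀ x : ℝ,
      ‖∑ n ∈ Finset.Icc 1 N, (rs (ext ε) ω n : ℂ) * e (n * x)‖ ≤ (1 + δ) * tg N)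
    (hth : ∀ δ r : ℝ, 0 < δ → 0 < r → r ≤ 1 → ∀ᵐ ω ∂μ, ∃ N0 : ℕ, ∀ N : ℕ, N0 ≤ N →
      (volume {x : ℝ | x ∈ Set.Ico (0 : ℝ) 1 ∧
        r * (1 + δ) * tg N ≤ ‖∑ n ∈ Finset.Icc 1 N, (rs (ext ε) ω n : ℂ) * e (n * x)‖}).toReal ≤
        (N : ℝ) ^ (-(r ^ 2) + δ))
    (κ δ r : ℝ) (hκ0 : 0 ≤ κ) (hκ1 : κ < 1) (hδ : 0 < δ)
    (hr0 : 0 < r) (hr1 : r ≤ 1) (hr : 1 - κ < r ^ 2) :
    ∀ᵐ ω ∂μ, ∃ N0 : ℕ, ∀ N : ℕ, N0 ≤ N → ∃ a : ℝ, ∀ x : ℝ, a ≤ x → x ≤ a + (N : ℝ) ^ (-κ) →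
      ‖∑ n ∈ Finset.Icc 1 N, (rs (ext ε) ω n : ℂ) * e (n * x)‖ < r * (1 + δ) * tg N := by
  classical
  -- parameters
  obtain ⟨d, hd0, hd1, hd2⟩ : ∃ d : ℝ, 0 < d ∧ d ≤ δ / 2 ∧ d ≤ (r ^ 2 - (1 - κ)) / 2 :=
    ⟨min (δ / 2) ((r ^ 2 - (1 - κ)) / 2), lt_min (by positivity) (by linarith), min_le_left _ _, min_le_right _ _⟩
  obtain ⟨θ, hθ⟩ : ∃ θ : ℝ, θ = r ^ 2 - (1 - κ) - d := ⟨_, rfl⟩
  have hθ0 : 0 < θ := by rw [hθ]; linarith
  obtain ⟨η, hη⟩ : ∃ η : ℝ, η = min (r * δ / 128) (1 / 2) := ⟨_, rfl⟩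
  have hη0 : 0 < η := by
    rw [hη]
    exact lt_min (by positivity) (by norm_num)
  have hη1 : 2 * η ≤ 1 := by
    have : η ≤ 1 / 2 := by rw [hη]; exact min_le_right _ _
    linarith
  have hη2 : 64 * η ≤ r * δ / 2 := by
    have : η ≤ r * δ / 128 := by rw [hη]; exact min_le_left _ _
    linarith
  -- all values are signs
  have hsign : ∀ᵐ ω ∂μ, ∀ p, ε p ω = -1 ∨ ε p ω = 1 := by
    rw [ae_all_iff]
    intro p
    have hm1 : MeasurableSet {ω | ε p ω = -1} := hm p (measurableSet_singleton _)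
    have hm2 : MeasurableSet {ω | ε p ω = 1} := hm p (measurableSet_singleton _)
    have hdis : Disjoint {ω | ε p ω = -1} {ω | ε p ω = 1} := by
      rw [Set.disjoint_left]
      intro ω ha hb
      have ha' : ε p ω = -1 := ha
      have hb' : ε p ω = 1 := hb
      rw [ha'] at hb'
      norm_num at hb'
    have hu : μ ({ω | ε p ω = -1} ∪ {ω | ε p ω = 1}) = 1 := by
      rw [measure_union hdis hm2, h2 p, h1 p]
      exact ENNReal.add_halves 1
    have hu' := (mem_ae_iff_prob_eq_one (hm1.union hm2)).2 hu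
    exact hu'
  filter_upwards [hsign, hup 1 one_pos, hth d r hd0 hr0 hr1] with ω hω' hupω hthω
  have hω : ∀ p, ext ε p ω = -1 ∨ ext ε p ω = 1 := by
    intro p
    unfold Pool.Agent.Helper5.RM.ext
    split_ifs with h
    · exact hω' _
    · right; rfl
  obtain ⟨N1, hN1⟩ := hupω
  obtain ⟨N2, hN2⟩ := tg_large96 N1
  obtain ⟨N3, hN3⟩ := hthω
  -- the partial sums
  have hcn : ∀ n, ‖(rs (ext ε) ω n : ℂ)‖ ≤ 1 := by
    intro n
    rw [Complex.norm_real, AS_rs_eq (ext ε) ω hω n n le_rfl]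
    exact abs_rf_le _ _
  have hpart : ∀ N : ℕ, N2 ≤ N → ∀ x : ℝ, ∀ n ≤ N,
      ‖∑ m ∈ Icc 1 n, (rs (ext ε) ω m : ℂ) * e (m * x)‖ ≤ 2 * tg N := by
    intro N hN x n hn
    by_cases hn1 : N1 ≤ n
    · refine (hN1 n hn1 x).trans ?_
      have := tg_mono96 hn
      linarith
    · have h3 : ‖∑ m ∈ Icc 1 n, (rs (ext ε) ω m : ℂ) * e (m * x)‖ ≤ n := by
        refine (norm_sum_le _ _).trans ?_
        calc ∑ m ∈ Icc 1 n, ‖(rs (ext ε) ω m : ℂ) * e (m * x)‖ ≤ ∑ m ∈ Icc 1 n, (1 : ℝ) := by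
              refine Finset.sum_le_sum fun m _ => ?_
              rw [norm_mul, norm_e, mul_one]
              exact hcn m
          _ = n := by simp
      have h4 := hN2 N hN
      have h5 : (n : ℝ) ≤ N1 := by exact_mod_cast (not_le.1 hn1).le
      have h6 : (0 : ℝ) ≤ N1 := by positivity
      linarith
  -- large `N`
  have hlim : ∀ᶠ N : ℕ in Filter.atTop, (N : ℝ) ^ (-θ) < η / 2 := by
    have h3 : Filter.Tendsto (fun N : ℕ => (N : ℝ) ^ (-θ)) Filter.atTop (nhds 0) :=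
      (tendsto_rpow_neg_atTop hθ0).comp tendsto_natCast_atTop_atTop
    exact h3.eventually_lt_const (by positivity)
  obtain ⟨N4, hN4⟩ := Filter.eventually_atTop.1 hlim
  refine ⟨max N2 (max N3 (max N4 2)), fun N hN => ?_⟩
  have hNa : N2 ≤ N := le_trans (le_max_left _ _) hN
  have hNb : N3 ≤ N := le_trans (le_trans (le_max_left _ _) (le_max_right _ _)) hN
  have hNc : N4 ≤ N := le_trans (le_trans (le_trans (le_max_left _ _) (le_max_right _ _)) (le_max_right _ _)) hN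
  have hNd : 2 ≤ N := le_trans (le_trans (le_trans (le_max_right _ _) (le_max_right _ _)) (le_max_right _ _)) hN
  have htg := tg_pos96 hNd
  have hN1r : (1 : ℝ) ≤ N := by exact_mod_cast (by omega : 1 ≤ N)
  have hN0 : (0 : ℝ) < N := by linarith
  by_contra hcon
  push Not at hcon
  -- the number of arcs
  obtain ⟨G, hG⟩ : ∃ G : ℕ, G = ⌊(N : ℝ) ^ κ⌋₊ := ⟨_, rfl⟩
  have hNκ1 : (1 : ℝ) ≤ (N : ℝ) ^ κ := Real.one_le_rpow hN1r hκ0
  have hG1 : 1 ≤ G := by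
    rw [hG]
    exact Nat.le_floor (by exact_mod_cast hNκ1)
  have hGle : (G : ℝ) ≤ (N : ℝ) ^ κ := by
    rw [hG]
    exact Nat.floor_le (by positivity)
  have hGge : (N : ℝ) ^ κ / 2 ≤ G := by
    have h3 : (N : ℝ) ^ κ < G + 1 := by
      rw [hG]
      exact Nat.lt_floor_add_one _
    have h4 : (1 : ℝ) ≤ G := by exact_mod_cast hG1
    linarith
  have hGN : G ≤ N := by
    have h3 : (G : ℝ) ≤ N := by
      refine hGle.trans ?_
      calc (N : ℝ) ^ κ ≤ (N : ℝ) ^ (1 : ℝ) := Real.rpow_le_rpow_of_exponent_le hN1r hκ1.le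
        _ = N := Real.rpow_one _
    exact_mod_cast h3
  have hG0 : (0 : ℝ) < G := by exact_mod_cast hG1
  have hκ' : (N : ℝ) ^ (-κ) ≤ 1 / G := by
    rw [Real.rpow_neg hN0.le, ← one_div]
    exact one_div_le_one_div_of_le hG0 hGle
  have hpi := Real.pi_lt_four
  have hpi0 := Real.pi_pos
  have hvol := arc_vol53 (fun x => ∑ n ∈ Finset.Icc 1 N, (rs (ext ε) ω n : ℂ) * e (n * x)) N G η
    (4 * Real.pi * (N + 1) * (2 * tg N)) (r * (1 + δ) * tg N) (r * (1 + d) * tg N) ((N : ℝ) ^ (-κ)) (by omega) hG1 hGN hη0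
    hη1 hκ' (fun x y => by
      have h3 := hslow N (fun n => (rs (ext ε) ω n : ℂ)) x y (2 * tg N) (hpart N hNa x)
      refine h3.trans (le_of_eq ?_)
      ring) (by positivity) (by
      have h3 : 4 * Real.pi * (N + 1) * (2 * tg N) * (η / N) ≤ 64 * η * tg N := by
        rw [← mul_div_assoc, div_le_iff₀ hN0]
        have h4 : Real.pi * (N + 1) ≤ 4 * (2 * N) := by
          apply mul_le_mul hpi.le _ (by positivity) (by norm_num)
          linarith
        calc 4 * Real.pi * (N + 1) * (2 * tg N) * η = (Real.pi * (N + 1)) * (8 * tg N * η) := by ring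
          _ ≤ (4 * (2 * N)) * (8 * tg N * η) := mul_le_mul_of_nonneg_right h4 (by positivity)
          _ = 64 * η * tg N * N := by ring
      have h5 : 64 * η * tg N ≤ r * δ / 2 * tg N := mul_le_mul_of_nonneg_right hη2 htg.le
      have h6 : r * (1 + d) * tg N ≤ r * (1 + δ / 2) * tg N := by
        apply mul_le_mul_of_nonneg_right _ htg.le
        apply mul_le_mul_of_nonneg_left _ hr0.le
        linarith
      have h7 : r * (1 + δ / 2) * tg N + r * δ / 2 * tg N = r * (1 + δ) * tg N := by ring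
      linarith) (fun a => by
      obtain ⟨x, hx1, hx2, hx3⟩ := hcon a
      exact ⟨x, hx1, hx2, hx3⟩)
  have hup' := hN3 N hNb
  have h3 : (G : ℝ) * (η / N) ≤ (N : ℝ) ^ (-(r ^ 2) + d) := hvol.trans hup'
  have h4 : (N : ℝ) ^ κ / 2 * (η / N) ≤ (N : ℝ) ^ (-(r ^ 2) + d) :=
    le_trans (mul_le_mul_of_nonneg_right hGge (by positivity)) h3
  have h5 : η / 2 ≤ (N : ℝ) ^ (-θ) := by
    have e1 : (N : ℝ) ^ κ / 2 * (η / N) = η / 2 * (N : ℝ) ^ (κ - 1) := by
      rw [Real.rpow_sub hN0, Real.rpow_one]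
      ring
    have e2 : (N : ℝ) ^ (-(r ^ 2) + d) = (N : ℝ) ^ (-θ) * (N : ℝ) ^ (κ - 1) := by
      rw [← Real.rpow_add hN0]
      congr 1
      rw [hθ]
      ring
    rw [e1, e2] at h4
    exact le_of_mul_le_mul_right h4 (by positivity)
  have h6 := hN4 N hNc
  linarith

end Pool.Agent.Helper51.EA
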